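import Pool.Agent.H752.GE.Strong

/-!
# How many oracles make `NEXP` closed under complement?

For every gauge `f`, the set of the oracles `A` with `NEXP^A = coNEXP^A` is a null set for `f` if
and only if for every `ε > 0` there are infinitely many `N` with `f N ≤ (log log N) ^ ε`. The same
holds for every set of oracles between
`{A | NEXP^A = coNEXP^A, EXP^A ≠ NEXP^A and NEXP^A ≠ EXPSPACE^A}` and `{A | NEXP^A = coNEXP^A}`.
-/

namespace Pool.Agent.Results.MP_6cef49_lc.GaugeThreshold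

open Pool.Agent.NPC Pool.Agent.H620R2.Gauge Pool.Agent.H622R2.Exp Filter

theorem result (f : ℕ → ℝ) :
    (∀ O : Set Oracle,
      (∀ A : Oracle, (∀ L, InNTime Pol A L ↔ InNTime Pol A Lᶜ) →
        (¬ ∀ L, InTime Pol A L ↔ InNTime Pol A L) →
        (¬ ∀ L, InNTime Pol A L ↔ InSpace Pol A L) → A ∈ O) →
      (∀ A ∈ O, ∀ L, InNTime Pol A L → InNTime Pol A Lᶜ) →
      (Null f O ↔
        ∀ ε : ℝ, 0 < ε → ∃ᶠ N : ℕ in atTop, f N ≤ (Real.logb 2 (Real.logb 2 N)) ^ ε)) ∧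
    (Null f {A : Oracle | ∀ L, InNTime Pol A L ↔ InNTime Pol A Lᶜ} ↔
      ∀ ε : ℝ, 0 < ε → ∃ᶠ N : ℕ in atTop, f N ≤ (Real.logb 2 (Real.logb 2 N)) ^ ε) :=
  ⟨fun O h1 h2 => Pool.Agent.H752.GE.strong_nexp f O h1 h2, Pool.Agent.H752.GE.null_nexp_iff' f⟩

end Pool.Agent.Results.MP_6cef49_lc.GaugeThreshold
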