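import Pool.Agent.H583R2.AD.Main

set_option autoImplicit false

/-!
# Complements of sparse languages in `NP` relative to a random oracle
-/

namespace Pool.Agent.Results.MP_6cef49_lc.RandomOracleSparse

open Pool.Agent.H628R3.RO Pool.Agent.H583R2.AD

/-- For almost every oracle `A`: for each `k`, some sparse language in `NP` relative to `A` has a
complement that is not in `NP / (k log n)` relative to `A`. -/
theorem result : ∀ᵐ A ∂randomOracle, ∀ k : ℕ, ∃ L ∈ NP A, Sparse L ∧
    Lᶜ ∉ Adv (NP A) (fun n => k * Nat.log 2 n) :=
  main2

end Pool.Agent.Results.MP_6cef49_lc.RandomOracleSparse
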